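import Pool.Agent.Y996.TL.Stm

/-! Task TL-B11: the case `(1,1)` of the uniqueness lemma. -/

namespace Pool.Agent.Y362.TL

open Pool.Agent.Y996.TL
open Pool.Agent.H988R2.Perc hiding X
open Finset Polynomial

namespace B11

theorem generic (D : List ℂ → List ℂ → ℂ) (hD : Good D) (h0 : ∀ y : ℂ, y ≠ 0 → D [q] [y] = 0)
    (h1 : ∀ x : ℂ, x ≠ 0 → D [x] [q^2 * x] = 0)
    (y : ℂ) (hy : y ≠ 0) (h6 : y^6 ≠ 1) :
    ∀ t : ℂ, t ≠ 0 → D [t] [y] = 0 := by
  have hq0 := q_ne_zero
  have hq3 := q_cube
  have hq1 := q_ne_one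
  have nz : ∀ z ∈ ([] : List ℂ) ++ [y], z ≠ 0 := by
    intro z hz
    simp only [List.nil_append, List.mem_singleton] at hz
    rw [hz]; exact hy
  obtain ⟨P, hPd, hP, hPz⟩ := hD.polyA [] [y] (by simp) (by simp) nz
  have hP' : ∀ t : ℂ, t ≠ 0 → P.eval t = D [t] [y] := by
    intro t ht
    have := hP t ht
    simpa using this
  -- inversion
  have inv : ∀ t : ℂ, t ≠ 0 → D [t] [y] = 0 → D [t⁻¹] [y] = 0 := by
    intro t ht h
    have := hD.invA [] [y] t (by simp) (by simp) ht nz
    rw [h] at this
    have h2 : t ^ ([y].length + 3) ≠ 0 := pow_ne_zero _ ht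
    rcases mul_eq_zero.mp this.symm with h3 | h3
    · exact absurd h3 h2
    · exact h3
  have hz1 : D [q] [y] = 0 := h0 y hy
  have hz2 : D [q⁻¹] [y] = 0 := inv q hq0 hz1
  have hz3 : D [q * y] [y] = 0 := by
    have := h1 (q * y) (mul_ne_zero hq0 hy)
    have h : q^2 * (q * y) = y := by rw [← mul_assoc, ← pow_succ, hq3, one_mul]
    rwa [h] at this
  have hz4 : D [(q * y)⁻¹] [y] = 0 := inv _ (mul_ne_zero hq0 hy) hz3
  have hinj : Function.Injective (![0, q, q⁻¹, q * y, (q * y)⁻¹] : Fin 5 → ℂ) := by
    have hqy : q * y ≠ 0 := mul_ne_zero hq0 hy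
    have hy3 : y^3 ≠ 0 := pow_ne_zero 3 hy
    have c1 : (q * y)^3 = y^3 := by rw [mul_pow, hq3, one_mul]
    have c2 : ((q * y)⁻¹)^3 = (y^3)⁻¹ := by rw [inv_pow, c1]
    have c3 : (q⁻¹)^3 = 1 := by rw [inv_pow, hq3, inv_one]
    have n2 : y^3 ≠ 1 := by
      intro h
      apply h6
      have : y^6 = y^3 * y^3 := by ring
      rw [this, h, one_mul]
    have n3 : (y^3)⁻¹ ≠ 1 := fun h => n2 (inv_eq_one.mp h)
    have n1 : y^3 ≠ (y^3)⁻¹ := by
      intro h
      apply h6
      have : y^3 * y^3 = 1 := by
        nth_rewrite 2 [h]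
        exact mul_inv_cancel₀ hy3
      rw [← this]; ring
    have e01 : (0 : ℂ) ≠ q := hq0.symm
    have e02 : (0 : ℂ) ≠ q⁻¹ := (inv_ne_zero hq0).symm
    have e03 : (0 : ℂ) ≠ q * y := hqy.symm
    have e04 : (0 : ℂ) ≠ (q * y)⁻¹ := (inv_ne_zero hqy).symm
    have e12 : q ≠ q⁻¹ := by
      intro h
      have h2 : q * q = 1 := by
        nth_rewrite 2 [h]
        exact mul_inv_cancel₀ hq0
      apply hq1
      have h3 : q^3 = q * q * q := by ring
      rw [h2, one_mul, hq3] at h3
      exact h3.symm
    have e13 : q ≠ q * y := fun h => n2 (by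
      have := congrArg (fun z => z^3) h
      simp only [c1, hq3] at this
      exact this.symm)
    have e14 : q ≠ (q * y)⁻¹ := fun h => n3 (by
      have := congrArg (fun z => z^3) h
      simp only [c2, hq3] at this
      exact this.symm)
    have e23 : q⁻¹ ≠ q * y := fun h => n2 (by
      have := congrArg (fun z => z^3) h
      simp only [c1, c3] at this
      exact this.symm)
    have e24 : q⁻¹ ≠ (q * y)⁻¹ := fun h => n3 (by
      have := congrArg (fun z => z^3) h
      simp only [c2, c3] at this
      exact this.symm)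
    have e34 : q * y ≠ (q * y)⁻¹ := fun h => n1 (by
      have := congrArg (fun z => z^3) h
      simp only [c1, c2] at this
      exact this)
    intro i j hij
    fin_cases i <;> fin_cases j
    · rfl
    · exact absurd hij e01
    · exact absurd hij e02
    · exact absurd hij e03
    · exact absurd hij e04
    · exact absurd hij e01.symm
    · rfl
    · exact absurd hij e12
    · exact absurd hij e13
    · exact absurd hij e14
    · exact absurd hij e02.symm
    · exact absurd hij e12.symm
    · rfl
    · exact absurd hij e23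
    · exact absurd hij e24
    · exact absurd hij e03.symm
    · exact absurd hij e13.symm
    · exact absurd hij e23.symm
    · rfl
    · exact absurd hij e34
    · exact absurd hij e04.symm
    · exact absurd hij e14.symm
    · exact absurd hij e24.symm
    · exact absurd hij e34.symm
    · rfl
  have hP0 : P = 0 := by
    refine Polynomial.eq_zero_of_natDegree_lt_card_of_eval_eq_zero P hinj ?_ ?_
    · intro i
      fin_cases i
      · exact hPz
      · show P.eval q = 0
        rw [hP' _ hq0, hz1]
      · show P.eval (q⁻¹) = 0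
        rw [hP' _ (inv_ne_zero hq0), hz2]
      · show P.eval (q * y) = 0
        rw [hP' _ (mul_ne_zero hq0 hy), hz3]
      · show P.eval ((q * y)⁻¹) = 0
        rw [hP' _ (inv_ne_zero (mul_ne_zero hq0 hy)), hz4]
    · rw [Fintype.card_fin]
      simp only [List.length_singleton, List.length_nil] at hPd
      omega
  intro t ht
  rw [← hP' t ht, hP0, Polynomial.eval_zero]

end B11

theorem b11 : S_B11 := by
  intro D hD h0 h1 A B hA hB hnz
  obtain ⟨x, rfl⟩ := List.length_eq_one_iff.1 hA
  obtain ⟨y, rfl⟩ := List.length_eq_one_iff.1 hB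
  have hx : x ≠ 0 := hnz x (by simp)
  have hy : y ≠ 0 := hnz y (by simp)
  have gen := B11.generic D hD h0 h1
  obtain ⟨P, hPd, hP, hPz⟩ := hD.polyB [x] [] (by simp) (by simp) (by
    intro z hz
    simp only [List.append_nil, List.mem_singleton] at hz
    rw [hz]; exact hx)
  have hP' : ∀ t : ℂ, t ≠ 0 → P.eval t = D [x] [t] := by
    intro t ht
    have := hP t ht
    simpa using this
  have hP0 : P = 0 := by
    refine Polynomial.eq_zero_of_infinite_isRoot P ?_
    have hfin : ({t : ℂ | t^6 = 1} ∪ {0}).Finite := by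
      refine Set.Finite.union ?_ (Set.finite_singleton 0)
      have hne : (X^6 - 1 : ℂ[X]) ≠ 0 := by
        have := Polynomial.X_pow_sub_C_ne_zero (R := ℂ) (n := 6) (by norm_num) 1
        simpa using this
      refine (Polynomial.finite_setOfPred_isRoot hne).subset ?_
      intro t ht
      show Polynomial.IsRoot _ t
      simp only [Set.mem_ofPred_eq] at ht
      simp [Polynomial.IsRoot, ht]
    refine Set.Infinite.mono ?_ hfin.infinite_compl
    intro t ht
    simp only [Set.mem_compl_iff, Set.mem_union, Set.mem_ofPred_eq, Set.mem_singleton_iff,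
      not_or] at ht
    show Polynomial.IsRoot P t
    rw [Polynomial.IsRoot, hP' t ht.2]
    exact gen t ht.2 ht.1 x hx
  rw [← hP' y hy, hP0, Polynomial.eval_zero]

end Pool.Agent.Y362.TL

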