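import Pool.Agent.Y996.TL.Stm
import Pool.Agent.H492C.U1

/-! Task TL-U: uniqueness. -/

namespace Pool.Agent.Y362.TL

open Pool.Agent.Y996.TL
open Pool.Agent.H988R2.Perc hiding X
open Pool.Agent.H492C Pool.Agent.H492C.U1
open Finset Polynomial

theorem u : S_U := by
  intro D hD base11 base33
  have main : ∀ N : ℕ, ∀ A B : List ℂ, A.length + B.length = N → Odd A.length → Odd B.length →
      (∀ z ∈ A ++ B, z ≠ 0) → D A B = 0 := by
    intro N
    induction N using Nat.strong_induction_on with
    | _ N IH =>
    intro A B hN hA hB h0
    have hA0 : ∀ z ∈ A, z ≠ 0 := fun z hz => h0 z (List.mem_append.2 (Or.inl hz))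
    have hB0 : ∀ z ∈ B, z ≠ 0 := fun z hz => h0 z (List.mem_append.2 (Or.inr hz))
    by_cases h1 : A.length + 5 ≤ 2 * B.length
    · -- B side
      have hperm : ∀ l l' : List ℂ, l.Perm l' → l.length = B.length → (∀ z ∈ l, z ≠ 0) →
          D A l = D A l' := by
        intro l l' hp hl hl0
        have := perm_gen (D A) B.length (by
          intro u v x y huv hx hy hz
          refine hD.swB A u v x y hA ?_ hx hy ?_
          · have h3 : u.length + v.length + 2 = B.length := huv
            rw [← h3] at hB
            rcases hB with ⟨k, hk⟩
            exact ⟨k - 1, by omega⟩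
          · intro z hz'
            rw [List.append_assoc] at hz'
            rcases List.mem_append.1 hz' with hz' | hz'
            · exact hA0 z hz'
            · exact hz z hz') l l' hp [] (by simpa using hl) (by simpa using hl0)
        simpa using this
      have hAl : ∀ l : List ℂ, (∀ z ∈ l, z ≠ 0) → ∀ z ∈ A ++ l, z ≠ 0 := by
        intro l hl z hz
        rcases List.mem_append.1 hz with hz | hz
        · exact hA0 z hz
        · exact hl z hz
      refine side B.length (2 * (B.length - 1) + 3 + A.length) 1 le_rfl (D A)
        (by rcases hB with ⟨k, hk⟩; omega) hperm ?_ ?_ ?_ ?_ B rfl hB0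
      · intro l x hl hl0 hx h
        have hlE : Even l.length := by
          rcases hB with ⟨k, hk⟩; exact ⟨k, by omega⟩
        have e1 : D A (x⁻¹ :: l) = D A (l ++ [x⁻¹]) :=
          hperm _ _ (List.perm_append_singleton _ _).symm (by simpa using hl) (by
            intro z hz
            rcases List.mem_cons.1 hz with rfl | hz
            · exact inv_ne_zero hx
            · exact hl0 z hz)
        have e2 : D A (x :: l) = D A (l ++ [x]) :=
          hperm _ _ (List.perm_append_singleton _ _).symm (by simpa using hl) (by
            intro z hz
            rcases List.mem_cons.1 hz with rfl | hz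
            · exact hx
            · exact hl0 z hz)
        rw [e2, hD.invB A l x hA hlE hx (hAl l hl0), ← e1, h, mul_zero]
      · intro l x hl hl0 hx
        have hlO : Odd l.length := by
          rcases hB with ⟨k, hk⟩; exact ⟨k - 1, by omega⟩
        rw [hD.pairB A l x hA hlO hx (hAl l hl0),
          IH (A.length + l.length) (by omega) A l rfl hA hlO (hAl l hl0), mul_zero]
      · intro l hl hl0
        have hlE : Even l.length := by
          rcases hB with ⟨k, hk⟩; exact ⟨k, by omega⟩
        obtain ⟨P, hPd, hPe, hP0⟩ := hD.polyB A l hA hlE (hAl l hl0)
        refine ⟨P, ?_, ?_, fun _ => hP0⟩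
        · have : l.length = B.length - 1 := by omega
          rw [this] at hPd; exact hPd
        · intro t ht
          have : l.length = B.length - 1 := by omega
          rw [hPe t ht, this]
          congr 1
          exact (hperm _ _ (List.perm_append_singleton _ _).symm (by simpa using hl) (by
            intro z hz
            rcases List.mem_cons.1 hz with rfl | hz
            · exact ht
            · exact hl0 z hz)).symm
      · omega
    · by_cases h2 : B.length + 5 ≤ 2 * A.length
      · -- A side
        have hperm : ∀ l l' : List ℂ, l.Perm l' → l.length = A.length → (∀ z ∈ l, z ≠ 0) →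
            D l B = D l' B := by
          intro l l' hp hl hl0
          have := perm_gen (fun l => D l B) A.length (by
            intro u v x y huv hx hy hz
            refine hD.swA u v B x y ?_ hB hx hy ?_
            · have h3 : u.length + v.length + 2 = A.length := huv
              rw [← h3] at hA
              rcases hA with ⟨k, hk⟩
              exact ⟨k - 1, by omega⟩
            · intro z hz'
              rcases List.mem_append.1 hz' with hz' | hz'
              · exact hz z hz'
              · exact hB0 z hz') l l' hp [] (by simpa using hl) (by simpa using hl0)
          simpa using this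
        have hlB : ∀ l : List ℂ, (∀ z ∈ l, z ≠ 0) → ∀ z ∈ l ++ B, z ≠ 0 := by
          intro l hl z hz
          rcases List.mem_append.1 hz with hz | hz
          · exact hl z hz
          · exact hB0 z hz
        refine side A.length (2 * (A.length - 1) + 3 + B.length) 1 le_rfl
          (fun l => D l B) (by rcases hA with ⟨k, hk⟩; omega) hperm ?_ ?_ ?_ ?_ A rfl hA0
        · intro l x hl hl0 hx h
          have hlE : Even l.length := by
            rcases hA with ⟨k, hk⟩; exact ⟨k, by omega⟩
          show D (x :: l) B = 0
          rw [hD.invA l B x hlE hB hx (hlB l hl0), h, mul_zero]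
        · intro l x hl hl0 hx
          have hlO : Odd l.length := by
            rcases hA with ⟨k, hk⟩; exact ⟨k - 1, by omega⟩
          show D (x :: (q^2 * x) :: l) B = 0
          rw [hD.pairA l B x hlO hB hx (hlB l hl0),
            IH (l.length + B.length) (by omega) l B rfl hlO hB (hlB l hl0), mul_zero]
        · intro l hl hl0
          have hlE : Even l.length := by
            rcases hA with ⟨k, hk⟩; exact ⟨k, by omega⟩
          obtain ⟨P, hPd, hPe, hP0⟩ := hD.polyA l B hlE hB (hlB l hl0)
          have hll : l.length = A.length - 1 := by omega
          refine ⟨P, ?_, ?_, fun _ => hP0⟩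
          · rw [hll] at hPd; exact hPd
          · intro t ht
            show P.eval t = t^(A.length - 1) * D (t :: l) B
            rw [hPe t ht, hll]
        · omega
      · by_cases h3 : A.length = 1 ∧ B.length = 1
        · exact base11 A B h3.1 h3.2 h0
        · have h4 : A.length = 3 ∧ B.length = 3 := by
            rcases hA with ⟨k, hk⟩
            rcases hB with ⟨j, hj⟩
            omega
          refine base33 ?_ ?_ A B h4.1 h4.2 h0
          · intro A' B' hA' hB' h0'
            exact IH (A'.length + B'.length) (by omega) A' B' rfl (by rw [hA']; decide)
              (by rw [hB']; decide) h0'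
          · intro A' B' hA' hB' h0'
            exact IH (A'.length + B'.length) (by omega) A' B' rfl (by rw [hA']; decide)
              (by rw [hB']; decide) h0'
  intro A B hA hB h0
  exact main _ A B rfl hA hB h0

end Pool.Agent.Y362.TL

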